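import Mathlib
import Pool.Agent.Sx28.Egg.Ftype

/-!
# Squeezing function tending to `1` at a boundary point which is not strongly pseudoconvex

The example is the egg `{|z_1|^2 + ... + |z_{n-1}|^2 + |w|^4 < 1}` and the point `(1, 0, ..., 0)`
(here the coordinate `w` has index `0` and the coordinate `z_1` has index `1`).
-/

set_option autoImplicit false
open Metric Filter Topology Set Asymptotics

namespace Pool.Agent.Results.MP_63facb_an.EggTangentialSequence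

/-- `ℂⁿ` with the Euclidean norm. -/
abbrev Cn (n : ℕ) := EuclideanSpace ℂ (Fin n)

variable {n : ℕ}

/-- Holomorphic embeddings of the open set `D` of `ℂⁿ` into `ℂⁿ`: injective holomorphic
immersions. -/
def IsHolEmbedding (D : Set (Cn n)) (F : Cn n → Cn n) : Prop :=
  DifferentiableOn ℂ F D ∧ InjOn F D ∧ ∀ x ∈ D, Function.Injective (fderiv ℂ F x)

/-- The squeezing function. -/
noncomputable def squeezing (D : Set (Cn n)) (z : Cn n) : ℝ :=
  sSup {r : ℝ | 0 < r ∧ ∃ F : Cn n → Cn n, IsHolEmbedding D F ∧ MapsTo F D (ball 0 1) ∧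
    F z = 0 ∧ ball 0 r ⊆ F '' D}

/-- `ρ` is a smooth local defining function of `D` on the neighbourhood `U` of `p`. -/
def IsDefining (D : Set (Cn n)) (p : Cn n) (U : Set (Cn n)) (ρ : Cn n → ℝ) : Prop :=
  IsOpen U ∧ p ∈ U ∧ ContDiffOn ℝ (⊤ : ℕ∞) ρ U ∧ (∀ z ∈ U, fderiv ℝ ρ z ≠ 0) ∧
    ∀ z ∈ U, z ∈ D ↔ ρ z < 0

/-- `w` lies in the complex tangent space at `q` of the level set of `ρ`. -/
def IsComplexTangent (ρ : Cn n → ℝ) (q w : Cn n) : Prop :=
  fderiv ℝ ρ q w = 0 ∧ fderiv ℝ ρ q (Complex.I • w) = 0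

/-- (Four times) the Levi form of `ρ` at `q`. -/
noncomputable def levi (ρ : Cn n → ℝ) (q w : Cn n) : ℝ :=
  iteratedFDeriv ℝ 2 ρ q ![w, w] + iteratedFDeriv ℝ 2 ρ q ![Complex.I • w, Complex.I • w]

/-- Levi pseudoconvexity at `q`. -/
def LeviPseudoconvexAt (ρ : Cn n → ℝ) (q : Cn n) : Prop :=
  ∀ w : Cn n, IsComplexTangent ρ q w → 0 ≤ levi ρ q w

/-- Strong (Levi) pseudoconvexity at `q`. -/
def StronglyPseudoconvexAt (ρ : Cn n → ℝ) (q : Cn n) : Prop :=
  ∀ w : Cn n, w ≠ 0 → IsComplexTangent ρ q w → 0 < levi ρ q w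

/-- The Levi form at `q` has at least `k` positive eigenvalues: it is positive definite on a
complex subspace, of dimension at least `k`, of the complex tangent space. -/
def AtLeastPositiveEigenvalues (ρ : Cn n → ℝ) (q : Cn n) (k : ℕ) : Prop :=
  ∃ V : Submodule ℂ (Cn n), k ≤ Module.finrank ℂ V ∧
    ∀ w ∈ V, IsComplexTangent ρ q w ∧ (w ≠ 0 → 0 < levi ρ q w)

/-- Finite D'Angelo type at `q`: there is `T` such that, for every nonconstant germ `γ` of a
holomorphic curve at `q`, the order of vanishing of `ρ ∘ γ` at `0` is at most `T` times the order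
of vanishing `μ` of `γ - q`. -/
def FiniteTypeAt (ρ : Cn n → ℝ) (q : Cn n) : Prop :=
  ∃ T : ℕ, ∀ γ : ℂ → Cn n, AnalyticAt ℂ γ 0 → γ 0 = q →
    ∀ μ : ℕ, analyticOrderAt (fun ζ => γ ζ - q) 0 = μ →
      ∀ k : ℕ, (fun ζ => ρ (γ ζ)) =O[𝓝 0] (fun ζ : ℂ => ‖ζ‖ ^ k) → k ≤ T * μ

theorem main (m : ℕ) : ∃ (D : Set (Cn (m + 2))) (p : Cn (m + 2)) (U : Set (Cn (m + 2)))
    (ρ : Cn (m + 2) → ℝ),
    (IsOpen D ∧ D.Nonempty ∧ Bornology.IsBounded D ∧ Convex ℝ D) ∧
    p ∈ frontier D ∧ IsDefining D p U ρ ∧ frontier D ⊆ U ∧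
    (∀ q ∈ frontier D, LeviPseudoconvexAt ρ q ∧ FiniteTypeAt ρ q) ∧
    AtLeastPositiveEigenvalues ρ p m ∧ ¬ StronglyPseudoconvexAt ρ p ∧
    ∃ z : ℕ → Cn (m + 2), (∀ ν, z ν ∈ D) ∧ Tendsto z atTop (𝓝 p) ∧
      Tendsto (fun ν => squeezing D (z ν)) atTop (𝓝 1) := by
  have hI : ∀ i (w : Cn (m + 2)), ‖(Complex.I • w) i‖ = ‖w i‖ := by
    intro i w
    rw [PiLp.smul_apply, norm_smul, Complex.norm_I, one_mul]
  have hRI : ∀ w : Cn (m + 2), Sx28.Egg.R (Complex.I • w) = Sx28.Egg.R w := by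
    intro w; rw [Sx28.Egg.R_smul, Complex.norm_I]; ring
  have hpf : (Sx28.Egg.pp : Cn (m + 2)) ∈ frontier (Sx28.Egg.E m) := by
    rw [Sx28.Egg.isOpen_E.frontier_eq]
    refine ⟨?_, fun h => absurd (show Sx28.Egg.g Sx28.Egg.pp < 1 from h)
      (by rw [Sx28.Egg.g_pp]; exact lt_irrefl _)⟩
    -- `s p → p` as `s → 1`
    have h1 : Tendsto (fun k : ℕ => ((1 : ℝ) - 1 / ((k : ℝ) + 1)) • (Sx28.Egg.pp : Cn (m + 2)))
        atTop (𝓝 (((1 : ℝ) - 0) • Sx28.Egg.pp)) :=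
      (tendsto_const_nhds.sub tendsto_one_div_add_atTop_nhds_zero_nat).smul_const _
    rw [sub_zero, one_smul] at h1
    refine mem_closure_of_tendsto h1 (Eventually.of_forall (fun k => ?_))
    show Sx28.Egg.g _ < 1
    have hs0 : 0 ≤ (1 : ℝ) - 1 / ((k : ℝ) + 1) := by
      rw [sub_nonneg, div_le_one (by positivity)]
      have : (0 : ℝ) ≤ k := Nat.cast_nonneg k
      linarith
    have hs1 : (1 : ℝ) - 1 / ((k : ℝ) + 1) < 1 := by
      have : 0 < 1 / ((k : ℝ) + 1) := by positivity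
      linarith
    have hs2 : ((1 : ℝ) - 1 / ((k : ℝ) + 1)) ^ 2 < 1 := pow_lt_one₀ hs0 hs1 two_ne_zero
    generalize (1 : ℝ) - 1 / ((k : ℝ) + 1) = s at hs0 hs1 hs2
    unfold Sx28.Egg.g Sx28.Egg.R Sx28.Egg.pp
    simp [hs2]
  refine ⟨Sx28.Egg.E m, Sx28.Egg.pp, {0}ᶜ, Sx28.Egg.rho,
    ⟨Sx28.Egg.isOpen_E, ⟨0, Sx28.Egg.zero_mem⟩, Sx28.Egg.bounded_E, Sx28.Egg.convex_E⟩, hpf,
    ⟨isOpen_compl_singleton, Sx28.Egg.ne_zero_of_frontier hpf,
      Sx28.Egg.rho_contDiff.contDiffOn, ?_, ?_⟩,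
    fun q hq => Sx28.Egg.ne_zero_of_frontier hq, ?_, ?_, ?_, ?_⟩
  · intro z hz h
    have h1 : Sx28.Egg.dg z z = 0 := by rw [← Sx28.Egg.fderiv_rho, h]; rfl
    rw [Sx28.Egg.dg_apply, Sx28.Egg.ip_self, real_inner_self_eq_norm_sq] at h1
    have hR := Sx28.Egg.R_nonneg z
    have hz0 : ‖z 0‖ ^ 2 * ‖z 0‖ ^ 2 = 0 := by
      have : 0 ≤ ‖z 0‖ ^ 2 * ‖z 0‖ ^ 2 := by positivity
      nlinarith [sq_nonneg ‖z 1‖]
    have hz0' : ‖z 0‖ ^ 2 = 0 := mul_self_eq_zero.1 hz0
    apply hz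
    have : ‖z‖ ^ 2 = 0 := by
      rw [Sx28.Egg.norm_sq_eq, hz0']
      rw [hz0] at h1; linarith
    simpa using this
  · intro z _
    show Sx28.Egg.g z < 1 ↔ Sx28.Egg.g z - 1 < 0
    exact sub_neg.symm
  · intro q hq
    refine ⟨fun w _ => ?_, 4, fun γ hγ hγ0 μ hμ k hk =>
      Sx28.Egg.ftype (Sx28.Egg.frontier_sub hq) hγ hγ0 hμ hk⟩
    unfold levi
    rw [Sx28.Egg.hess, Sx28.Egg.hess, Sx28.Egg.ip_self, Sx28.Egg.ip_self,
      real_inner_self_eq_norm_sq, real_inner_self_eq_norm_sq]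
    have h1 := Sx28.Egg.R_nonneg w
    have h2 := Sx28.Egg.R_nonneg (Complex.I • w)
    have h3 := mul_self_nonneg (inner ℝ (q 0) (w 0))
    have h4 := mul_self_nonneg (inner ℝ (q 0) ((Complex.I • w) 0))
    have h5 : 0 ≤ ‖q 0‖ ^ 2 * ‖w 0‖ ^ 2 := by positivity
    have h6 : 0 ≤ ‖q 0‖ ^ 2 * ‖(Complex.I • w) 0‖ ^ 2 := by positivity
    nlinarith [sq_nonneg ‖w 1‖, sq_nonneg ‖(Complex.I • w) 1‖]
  · -- positive eigenvalues
    let f : Cn (m + 2) →ₗ[ℂ] ℂ × ℂ :=
      ((EuclideanSpace.proj 0 : Cn (m + 2) →L[ℂ] ℂ) : Cn (m + 2) →ₗ[ℂ] ℂ).prod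
        ((EuclideanSpace.proj 1 : Cn (m + 2) →L[ℂ] ℂ) : Cn (m + 2) →ₗ[ℂ] ℂ)
    refine ⟨LinearMap.ker f, ?_, ?_⟩
    · have h1 := LinearMap.finrank_range_add_finrank_ker f
      have h2 : Module.finrank ℂ (LinearMap.range f) ≤ 2 := by
        refine (Submodule.finrank_le _).trans (le_of_eq ?_)
        simp
      have h3 : Module.finrank ℂ (Cn (m + 2)) = m + 2 := by simp
      rw [h3] at h1
      omega
    · intro w hw
      have hw0 : w 0 = 0 := congrArg Prod.fst (LinearMap.mem_ker.1 hw)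
      have hw1 : w 1 = 0 := congrArg Prod.snd (LinearMap.mem_ker.1 hw)
      have hp0 : (Sx28.Egg.pp : Cn (m + 2)) 0 = 0 := rfl
      have hip : ∀ v : Cn (m + 2), v 1 = 0 → Sx28.Egg.ip Sx28.Egg.pp v = 0 := by
        intro v hv
        unfold Sx28.Egg.ip Sx28.Egg.pp
        simp [hv]
      refine ⟨⟨?_, ?_⟩, fun hne => ?_⟩
      · rw [Sx28.Egg.fderiv_rho, Sx28.Egg.dg_apply, hip w hw1, hp0]; simp
      · rw [Sx28.Egg.fderiv_rho, Sx28.Egg.dg_apply, hip _ (by simp [hw1]), hp0]; simp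
      · have hpos : 0 < ‖w‖ ^ 2 := by positivity
        rw [Sx28.Egg.norm_sq_eq, hw0, hw1] at hpos
        unfold levi
        rw [Sx28.Egg.hess, Sx28.Egg.hess, Sx28.Egg.ip_self, Sx28.Egg.ip_self, hp0, hRI, hI]
        simp only [hw1, inner_zero_left, norm_zero]
        simp only [norm_zero] at hpos
        nlinarith
  · -- not strongly pseudoconvex
    intro h
    have hp0 : (Sx28.Egg.pp : Cn (m + 2)) 0 = 0 := rfl
    set w : Cn (m + 2) := Sx28.Egg.mk 1 0 0 with hw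
    have hwne : w ≠ 0 := by
      intro h0
      have : w 0 = 0 := by rw [h0]; rfl
      rw [hw, Sx28.Egg.mk_zero] at this
      exact one_ne_zero this
    have hw1 : w 1 = 0 := rfl
    have hwi : ∀ i : Fin m, w i.succ.succ = 0 := fun i => rfl
    have hR : Sx28.Egg.R w = 0 := by
      unfold Sx28.Egg.R
      simp [hwi]
    have hip : ∀ v : Cn (m + 2), v 1 = 0 → Sx28.Egg.ip Sx28.Egg.pp v = 0 := by
      intro v hv
      unfold Sx28.Egg.ip Sx28.Egg.pp
      simp [hv]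
    have := h w hwne ⟨by rw [Sx28.Egg.fderiv_rho, Sx28.Egg.dg_apply, hip w hw1, hp0]; simp,
      by rw [Sx28.Egg.fderiv_rho, Sx28.Egg.dg_apply, hip _ (by simp [hw1]), hp0]; simp⟩
    unfold levi at this
    rw [Sx28.Egg.hess, Sx28.Egg.hess, Sx28.Egg.ip_self, Sx28.Egg.ip_self, hp0, hRI, hI, hR, hw1]
      at this
    simp at this
  · -- the sequence
    set s : ℕ → ℝ := fun ν => 1 - 1 / ((ν : ℝ) + 5) with hs
    have hs0 : ∀ ν, 4 / 5 ≤ s ν := by
      intro ν
      have h1 : 1 / ((ν : ℝ) + 5) ≤ 1 / 5 := by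
        apply one_div_le_one_div_of_le (by norm_num)
        have : (0 : ℝ) ≤ ν := Nat.cast_nonneg ν
        linarith
      simp only [hs]; linarith
    have hs1 : ∀ ν, s ν < 1 := by
      intro ν
      have : 0 < 1 / ((ν : ℝ) + 5) := by positivity
      simp only [hs]; linarith
    have hslim : Tendsto s atTop (𝓝 1) := by
      have h1 : Tendsto (fun ν : ℕ => 1 / ((ν : ℝ) + 5)) atTop (𝓝 0) := by
        have h2 : Tendsto (fun ν : ℕ => (ν : ℝ) + 5) atTop atTop :=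
          tendsto_atTop_add_const_right _ _ tendsto_natCast_atTop_atTop
        exact tendsto_const_nhds.div_atTop h2
      have := (tendsto_const_nhds (x := (1 : ℝ))).sub h1
      rw [sub_zero] at this
      exact this
    have habs : ∀ ν, |s ν| < 1 := fun ν => by
      rw [abs_of_nonneg (by linarith [hs0 ν])]; exact hs1 ν
    refine ⟨fun ν => Sx28.Egg.pt (s ν) (s ν), fun ν => ?_, ?_, ?_⟩
    · exact Sx28.Egg.Phi_mem (habs ν) (Sx28.Egg.base_mem (by linarith [hs0 ν]) (hs1 ν))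
    · -- convergence
      have hpt : ∀ a : ℝ, (Sx28.Egg.pt a a : Cn (m + 2)) =
          Sx28.Egg.mk ((Real.sqrt (Real.sqrt (1 - a ^ 2)) : ℂ) * a) a 0 := by
        intro a
        unfold Sx28.Egg.pt Sx28.Egg.Phi
        apply Sx28.Egg.ext_mk
        · simp [Sx28.Egg.sq]
        · simp
        · intro i; simp
      have hcont : Continuous (fun a : ℝ =>
          (Sx28.Egg.mk ((Real.sqrt (Real.sqrt (1 - a ^ 2)) : ℂ) * a) a 0 : Cn (m + 2))) := by
        unfold Sx28.Egg.mk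
        apply (PiLp.continuous_toLp 2 _).comp
        apply continuous_pi
        intro i
        refine Fin.cases ?_ (fun i => ?_) i
        · simp only [Fin.cons_zero]; fun_prop
        · refine Fin.cases ?_ (fun i => ?_) i
          · simp only [Fin.cons_succ, Fin.cons_zero]; fun_prop
          · simp only [Fin.cons_succ]; fun_prop
      have h1 := (hcont.tendsto 1).comp hslim
      have h2 : (Sx28.Egg.mk ((Real.sqrt (Real.sqrt (1 - (1 : ℝ) ^ 2)) : ℂ) * (1 : ℝ)) (1 : ℝ) 0 :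
          Cn (m + 2)) = Sx28.Egg.pp := by
        unfold Sx28.Egg.pp
        simp
      rw [h2] at h1
      refine h1.congr (fun ν => ?_)
      simp only [Function.comp]
      rw [hpt]
    · -- squeezing function
      have hlow : ∀ ν, Real.sqrt (2 * (s ν) ^ 2 - 1) ≤
          squeezing (Sx28.Egg.E m) (Sx28.Egg.pt (s ν) (s ν)) := by
        intro ν
        obtain ⟨F, h1, h2, h3, h4, h5, h6⟩ := Sx28.Egg.embed (m := m) (habs ν)
          (by linarith [hs0 ν]) (hs1 ν)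
        have hpos : 0 < 2 * (s ν) ^ 2 - 1 := by nlinarith [hs0 ν]
        apply le_csSup
        · refine ⟨1, ?_⟩
          rintro r ⟨hr, F', _, hF'2, _, hF'4⟩
          by_contra hlt
          push Not at hlt
          have hv : ∃ v : Cn (m + 2), ‖v‖ = 1 := ⟨Sx28.Egg.pp, by
            have : ‖(Sx28.Egg.pp : Cn (m + 2))‖ ^ 2 = 1 := by
              rw [Sx28.Egg.norm_sq_eq]; unfold Sx28.Egg.R Sx28.Egg.pp; simp
            exact (pow_eq_one_iff_of_nonneg (norm_nonneg _) two_ne_zero).1 this⟩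
          obtain ⟨v, hv⟩ := hv
          obtain ⟨x, hx, hxv⟩ := hF'4 (show v ∈ ball 0 r by rw [mem_ball_zero_iff, hv]; exact hlt)
          have := hF'2 hx
          rw [hxv, mem_ball_zero_iff, hv] at this
          exact lt_irrefl _ this
        · refine ⟨Real.sqrt_pos.2 hpos, F, ⟨h1, h2, h3⟩, h4, h5, ?_⟩
          intro y hy
          apply h6
          rw [mem_ball_zero_iff] at hy
          have := (Real.lt_sqrt (norm_nonneg y)).1 hy
          exact this
      have hup : ∀ ν, squeezing (Sx28.Egg.E m) (Sx28.Egg.pt (s ν) (s ν)) ≤ 1 := by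
        intro ν
        apply Real.sSup_le _ zero_le_one
        rintro r ⟨hr, F', _, hF'2, _, hF'4⟩
        by_contra hlt
        push Not at hlt
        have hv : ∃ v : Cn (m + 2), ‖v‖ = 1 := ⟨Sx28.Egg.pp, by
          have : ‖(Sx28.Egg.pp : Cn (m + 2))‖ ^ 2 = 1 := by
            rw [Sx28.Egg.norm_sq_eq]; unfold Sx28.Egg.R Sx28.Egg.pp; simp
          exact (pow_eq_one_iff_of_nonneg (norm_nonneg _) two_ne_zero).1 this⟩
        obtain ⟨v, hv⟩ := hv
        obtain ⟨x, hx, hxv⟩ := hF'4 (show v ∈ ball 0 r by rw [mem_ball_zero_iff, hv]; exact hlt)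
        have := hF'2 hx
        rw [hxv, mem_ball_zero_iff, hv] at this
        exact lt_irrefl _ this
      have hlim : Tendsto (fun ν => Real.sqrt (2 * (s ν) ^ 2 - 1)) atTop (𝓝 1) := by
        have hc : Continuous (fun x : ℝ => Real.sqrt (2 * x ^ 2 - 1)) := by fun_prop
        have := (hc.tendsto 1).comp hslim
        have h1 : Real.sqrt (2 * (1 : ℝ) ^ 2 - 1) = 1 := by norm_num
        rw [h1] at this
        exact this
      exact tendsto_of_tendsto_of_tendsto_of_le_of_le hlim tendsto_const_nhds hlow hup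

/-- **Positive answer to Q1.** For every `n ≥ 2` there are a bounded convex domain `D` in `ℂⁿ`
with globally smooth, Levi pseudoconvex boundary of finite type and a point `p` of its boundary at
which the Levi form has `n - 2` positive eigenvalues but is not positive definite, together with
a sequence in `D` tending to `p` along which the squeezing function tends to `1`. -/
theorem result : ∀ n : ℕ, 2 ≤ n → ∃ (D : Set (Cn n)) (p : Cn n) (U : Set (Cn n)) (ρ : Cn n → ℝ),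
    (IsOpen D ∧ D.Nonempty ∧ Bornology.IsBounded D ∧ Convex ℝ D) ∧
    p ∈ frontier D ∧ IsDefining D p U ρ ∧ frontier D ⊆ U ∧
    (∀ q ∈ frontier D, LeviPseudoconvexAt ρ q ∧ FiniteTypeAt ρ q) ∧
    AtLeastPositiveEigenvalues ρ p (n - 2) ∧ ¬ StronglyPseudoconvexAt ρ p ∧
    ∃ z : ℕ → Cn n, (∀ ν, z ν ∈ D) ∧ Tendsto z atTop (𝓝 p) ∧
      Tendsto (fun ν => squeezing D (z ν)) atTop (𝓝 1) := by
  intro n hn
  obtain ⟨m, rfl⟩ : ∃ m, n = m + 2 := ⟨n - 2, by omega⟩
  exact main m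

end Pool.Agent.Results.MP_63facb_an.EggTangentialSequence
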